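import Pool.Agent.Y501.SY.StmV

/-!
Local regularization of a primitive of a uniformly taming form: assembly.
-/

set_option autoImplicit false

open Set Filter Topology MeasureTheory
open scoped Manifold ContDiff

noncomputable section

namespace Pool.Agent.Y972.SY

open Pool.Agent.Y501.SY Pool.Agent.Y515.SY

variable {d : ℕ}

theorem comp_id1 (η : Al d 1) (y : E d) : η.compContinuousLinearMap (LL 0 y) = η := by
  apply ContinuousAlternatingMap.ext
  intro v
  change η (fun i => LL 0 y (v i)) = η v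
  congr 1
  funext i
  rw [LL_apply]
  simp

theorem comp_norm1 (η : Al d 1) (T : E d →L[ℝ] E d) :
    ‖η.compContinuousLinearMap T‖ ≤ ‖η‖ * ‖T‖ := by
  have := ContinuousAlternatingMap.norm_compContinuousLinearMap_le η T
  simpa using this

/-- the average at a point at which `χ` vanishes -/
theorem JJ1_eq {ρ χ : E d → ℝ} {ε : ℝ} (hρ : Moll ε ρ) (Φ : E d → Al d 1) {p : E d}
    (hp : χ p = 0) (hp' : fderiv ℝ χ p = 0) : JJ1 ρ χ Φ p = Φ p := by
  unfold JJ1
  have h1 : ∀ y : E d, ρ y • (Φ (p + χ p • y)).compContinuousLinearMap (LL (fderiv ℝ χ p) y) =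
      ρ y • Φ p := by
    intro y
    rw [hp, hp', zero_smul, add_zero, comp_id1]
  simp_rw [h1]
  rw [integral_smul_const, hρ.int, one_smul]

/-- the bound -/
theorem JJ1_bd {ρ χ : E d → ℝ} {ε : ℝ} (hρ : Moll ε ρ) {Φ : E d → Al d 1} {b : ℝ}
    (hb : ∀ q, ‖Φ q‖ ≤ b) {p : E d} {D : ℝ} (hD : ‖fderiv ℝ χ p‖ ≤ D) :
    ‖JJ1 ρ χ Φ p‖ ≤ b * (1 + D * ε) := by
  have hb0 : 0 ≤ b := (norm_nonneg _).trans (hb 0)
  have hD0 : 0 ≤ D := (norm_nonneg _).trans hD
  have h1 : ∫ y, ρ y * (b * (1 + D * ε)) = b * (1 + D * ε) := by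
    rw [integral_mul_const, hρ.int, one_mul]
  rw [← h1]
  unfold JJ1
  refine norm_integral_le_of_norm_le ((moll_int hρ).mul_const _)
    (Eventually.of_forall fun y => ?_)
  rw [norm_smul, Real.norm_of_nonneg (hρ.nonneg y)]
  by_cases hy : ε ≤ ‖y‖
  · rw [hρ.supp y hy, zero_mul, zero_mul]
  · rw [not_le] at hy
    refine mul_le_mul_of_nonneg_left ?_ (hρ.nonneg y)
    refine (comp_norm1 _ _).trans ?_
    have h2 : ‖LL (fderiv ℝ χ p) y‖ ≤ 1 + D * ε := by
      refine (LL_norm _ _).trans ?_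
      have := mul_le_mul hD hy.le (norm_nonneg _) hD0
      linarith
    exact mul_le_mul (hb _) h2 (norm_nonneg _) hb0

/-- the averages do not see a null set -/
theorem JJ_ind {ρ χ : E d → ℝ} {ε : ℝ} (hρ : Moll ε ρ) {V k Q : Set (E d)} {s : E d → Al d 2}
    (hQV : Q ⊆ V) (hkQ : volume (k ∩ Q) = 0) {p : E d} (hp : χ p ≠ 0)
    (hball : ∀ y, ‖y‖ ≤ ε → p + χ p • y ∈ Q) :
    JJ ρ χ s p = JJ ρ χ ((V \ k).indicator s) p := by
  unfold JJ
  apply integral_congr_ae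
  filter_upwards [aff_null hkQ p hp] with y hy
  by_cases hyε : ε ≤ ‖y‖
  · rw [hρ.supp y hyε, zero_smul, zero_smul]
  rw [not_le] at hyε
  have hqQ := hball y hyε.le
  have hqVk : p + χ p • y ∈ V \ k := ⟨hQV hqQ, fun h => hy ⟨h, hqQ⟩⟩
  rw [indicator_of_mem hqVk]

/-- the exterior derivative of a smooth form is smooth -/
theorem ext_smooth {n : ℕ} {U : Set (E d)} (hU : IsOpen U) {b : E d → Al d n}
    (hb : ContDiffOn ℝ ∞ b U) : ContDiffOn ℝ ∞ (extDeriv b) U := by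
  have h1 : ContDiffOn ℝ ∞ (fderiv ℝ b) U := hb.fderiv_of_isOpen hU (by simp)
  exact (ContinuousAlternatingMap.alternatizeUncurryFinCLM ℝ (E d) ℝ).contDiff.comp_contDiffOn h1

theorem t_RGP : S_RGP := by
  intro hK hSM hJ1 hHH d V k χ s₀ t b Js B c hc hV hkV hVk hcap hχ hχ0 hχc hχV hs1 hs2 hs3
    ht1 ht2 ht3 hb1 hb2 hsb2 hJ hJB htp hsp
  obtain ⟨ε₁, hε₁⟩ : ∃ ε : ℝ, ε = c / (B ^ 2 + 1) := ⟨_, rfl⟩
  have hε₁0 : 0 < ε₁ := by rw [hε₁]; positivity
  have hεB : ε₁ * B ^ 2 ≤ c := by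
    rw [hε₁, div_mul_eq_mul_div, div_le_iff₀ (by positivity)]
    nlinarith
  have hB0 : ∀ p ∈ V, 0 ≤ B := fun p hp => (norm_nonneg _).trans (ht3 p hp)
  have hdt : ∀ p ∈ V, DifferentiableAt ℝ t p := fun p hp =>
    (ht1.contDiffAt (hV.mem_nhds hp)).differentiableAt (by simp)
  have hdt' : ∀ (r : ℝ), ∀ p ∈ V, DifferentiableAt ℝ (fun q => r • t q) p := fun r p hp =>
    (hdt p hp).const_smul r
  have het : ∀ (r : ℝ), ∀ p ∈ V, extDeriv (fun q => r • t q) p = 0 := by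
    intro r p hp
    change extDeriv (r • t) p = 0
    rw [extDeriv_smul, ht2 p hp, smul_zero]
  obtain ⟨s1, hs1d⟩ : ∃ s1 : E d → Al d 2, s1 = fun p => s₀ p + (-ε₁) • t p := ⟨_, rfl⟩
  have hs1c : ContDiffOn ℝ ∞ s1 V := by rw [hs1d]; exact hs1.add (ht1.const_smul (-ε₁))
  have hs1cl : ∀ p ∈ V, extDeriv s1 p = 0 := by
    intro p hp
    have hds : DifferentiableAt ℝ s₀ p :=
      (hs1.contDiffAt (hV.mem_nhds hp)).differentiableAt (by simp)
    have h1 := extDeriv_fun_add hds (hdt' (-ε₁) p hp)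
    rw [hs1d, h1, hs2 p hp, het (-ε₁) p hp, add_zero]
  obtain ⟨a, had⟩ : ∃ a : E d → Al d 2, a = fun p => s1 p + extDeriv b p := ⟨_, rfl⟩
  have hdb : ContDiffOn ℝ ∞ (extDeriv b) (V \ k) := ext_smooth hVk hb1
  have hac : ContDiffOn ℝ ∞ a (V \ k) := by rw [had]; exact (hs1c.mono sdiff_subset).add hdb
  obtain ⟨b₀, hb₀d⟩ : ∃ b₀ : ℝ, b₀ = max (B + ε₁ * B) 0 := ⟨_, rfl⟩
  have hb₀0 : 0 ≤ b₀ := by rw [hb₀d]; exact le_max_right _ _
  have ha : ∀ p, a p = (s₀ p + extDeriv b p) + (-ε₁) • t p := by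
    intro p
    rw [had, hs1d]
    change s₀ p + (-ε₁) • t p + extDeriv b p = _
    abel
  have hab : ∀ p ∈ V \ k, ‖a p‖ ≤ b₀ := by
    intro p hp
    rw [ha, hb₀d]
    refine le_trans ?_ (le_max_left _ _)
    refine (norm_add_le _ _).trans (add_le_add (hsb2 p hp) ?_)
    rw [norm_smul, norm_neg, Real.norm_eq_abs, abs_of_pos hε₁0]
    exact mul_le_mul_of_nonneg_left (ht3 p hp.1) hε₁0.le
  have hapos : ∀ p ∈ V \ k, ∀ v : E d, - (0 : ℝ) * ‖v‖ ^ 2 ≤ a p ![v, Js p v] := by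
    intro p hp v
    have h1 := hsp p hp v
    have h2 := two_bound (t p) v (Js p v)
    have hB := hB0 p hp.1
    have h3 : ‖Js p v‖ ≤ B * ‖v‖ :=
      ((Js p).le_opNorm v).trans (mul_le_mul_of_nonneg_right (hJB p hp.1) (norm_nonneg _))
    have h4 : ‖t p‖ * (‖v‖ * ‖Js p v‖) ≤ B * (‖v‖ * (B * ‖v‖)) :=
      mul_le_mul (ht3 p hp.1) (mul_le_mul_of_nonneg_left h3 (norm_nonneg _))
        (by positivity) hB
    have h5 : t p ![v, Js p v] ≤ B ^ 2 * ‖v‖ ^ 2 := by
      refine (le_abs_self _).trans (h2.trans (h4.trans (le_of_eq ?_)))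
      ring
    have h6 : a p ![v, Js p v] =
        (s₀ p + extDeriv b p) ![v, Js p v] - ε₁ * t p ![v, Js p v] := by
      rw [ha]
      change (s₀ p + extDeriv b p) ![v, Js p v] + (-ε₁) * t p ![v, Js p v] = _
      ring
    rw [h6]
    have h7 := mul_le_mul_of_nonneg_left h5 hε₁0.le
    have h8 := mul_le_mul_of_nonneg_right hεB (sq_nonneg ‖v‖)
    nlinarith
  -- the parameters
  obtain ⟨δ, hδd⟩ : ∃ δ : ℝ, δ = ε₁ * c / 2 := ⟨_, rfl⟩
  have hδ : 0 < δ := by rw [hδd]; positivity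
  obtain ⟨r, hr, hrV⟩ := IsCompact.exists_cthickening_subset_open hχc hV hχV
  set Q : Set (E d) := Metric.cthickening r (tsupport χ) with hQdef
  have hQ : IsCompact Q := IsCompact.cthickening hχc
  have hNQ : tsupport χ ⊆ Q := Metric.self_subset_cthickening _
  have hcapQ : Cap (k ∩ Q) := hcap Q hQ hrV
  have hkQ : volume (k ∩ Q) = 0 := vol_zero hcapQ
  obtain ⟨S₀, hS₀⟩ := hQ.exists_bound_of_continuousOn (hJ.mono hrV)
  set S : ℝ := max S₀ 0 with hSdef
  have hS0 : 0 ≤ S := le_max_right _ _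
  have hS : ∀ p ∈ Q, ‖Js p‖ ≤ S := fun p hp => (hS₀ p hp).trans (le_max_left _ _)
  obtain ⟨D, hD⟩ := (hχ.continuous_fderiv (by simp)).bounded_above_of_compact_support
    (hχc.fderiv ℝ)
  have hD0 : 0 ≤ D := (norm_nonneg _).trans (hD 0)
  obtain ⟨X, hX⟩ := hχ.continuous.bounded_above_of_compact_support hχc
  have hX0 : 0 ≤ X := (norm_nonneg _).trans (hX 0)
  obtain ⟨δ₁, hδ₁def⟩ : ∃ δ₁ : ℝ, δ₁ = δ / (2 * (b₀ + 1)) := ⟨_, rfl⟩
  have hδ₁ : 0 < δ₁ := by rw [hδ₁def]; positivity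
  obtain ⟨r₃, hr₃, hr₃'⟩ := Metric.uniformContinuousOn_iff.1
    (hQ.uniformContinuousOn_of_continuous (hJ.mono hrV)) δ₁ hδ₁
  obtain ⟨ε, hεdef⟩ : ∃ ε : ℝ, ε = min (min (r / (X + 1)) (r₃ / (2 * (X + 1))))
    (δ / (4 * ((b₀ + 1) * (D + 1) * (S + 1)))) := ⟨_, rfl⟩
  have hε : 0 < ε := by
    rw [hεdef]
    refine lt_min (lt_min (by positivity) (by positivity)) (by positivity)
  have hεa : ε ≤ r / (X + 1) := by rw [hεdef]; exact (min_le_left _ _).trans (min_le_left _ _)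
  have hεb : ε ≤ r₃ / (2 * (X + 1)) := by
    rw [hεdef]; exact (min_le_left _ _).trans (min_le_right _ _)
  have hεc : ε ≤ δ / (4 * ((b₀ + 1) * (D + 1) * (S + 1))) := by
    rw [hεdef]; exact min_le_right _ _
  rw [le_div_iff₀ (by positivity)] at hεa hεb hεc
  obtain ⟨ρ, hρ⟩ := moll_exists (d := d) hε
  have hmove : ∀ p y : E d, ‖y‖ ≤ ε → ‖χ p • y‖ ≤ X * ε := by
    intro p y hy
    rw [norm_smul]
    exact mul_le_mul (hX p) hy (norm_nonneg _) hX0
  have hball : ∀ p ∈ tsupport χ, ∀ y, ‖y‖ ≤ ε → p + χ p • y ∈ Q := by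
    intro p hp y hy
    refine Metric.mem_cthickening_of_dist_le _ p _ _ hp ?_
    rw [dist_eq_norm, add_sub_cancel_left]
    refine (hmove p y hy).trans ?_
    nlinarith
  have hin : ∀ p, χ p ≠ 0 → p ∈ tsupport χ := fun p hp => subset_tsupport χ hp
  have hfd : ∀ p, χ p = 0 → fderiv ℝ χ p = 0 := by
    intro p hp
    apply IsLocalMin.fderiv_eq_zero
    refine Eventually.of_forall fun x => ?_
    rw [hp]
    exact hχ0 x
  -- the homotopy
  obtain ⟨h, hh1, hh2, hh3⟩ := hHH hSM d V χ ρ s1 ε hV hχ hχ0 hχc hε hρ hs1c hs1cl (by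
    intro p hp y hy u hu0 hu1
    by_cases h0 : χ p = 0
    · rw [h0, mul_zero, zero_smul, add_zero]
      exact hp
    · apply hrV
      refine Metric.mem_cthickening_of_dist_le _ p _ _ (hin p h0) ?_
      rw [dist_eq_norm, add_sub_cancel_left, mul_smul, norm_smul, Real.norm_of_nonneg hu0]
      have h1 := hmove p y hy
      have h2 : u * ‖χ p • y‖ ≤ 1 * (X * ε) := mul_le_mul hu1 h1 (norm_nonneg _) zero_le_one
      refine h2.trans ?_
      nlinarith)
  obtain ⟨H, hH⟩ := (show IsCompact (tsupport χ) from hχc).exists_bound_of_continuousOn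
    (hh1.continuousOn.mono hχV)
  -- the open set
  classical
  set J : E d → Al d 2 := JJ ρ χ ((V \ k).indicator a) with hJdef
  set Ω : Set (E d) := V \ (k ∩ {p | χ p = 0}) with hΩ
  have hsplit : ∀ p ∈ Ω, (χ p = 0 ∧ p ∈ V \ k) ∨ (0 < χ p ∧ p ∈ V) := by
    intro p hp
    by_cases h : χ p = 0
    · exact Or.inl ⟨h, hp.1, fun hk => hp.2 ⟨hk, h⟩⟩
    · exact Or.inr ⟨lt_of_le_of_ne (hχ0 p) (Ne.symm h), hp.1⟩
  have hΩo : IsOpen Ω := by
    have h1 : Ω = (V \ k) ∪ (V ∩ {p | χ p ≠ 0}) := by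
      ext p
      constructor
      · intro hp
        rcases hsplit p hp with h | h
        · exact Or.inl h.2
        · exact Or.inr ⟨h.2, h.1.ne'⟩
      · rintro (h | h)
        · exact ⟨h.1, fun h' => h.2 h'.1⟩
        · exact ⟨h.1, fun h' => h.2 h'.2⟩
    rw [h1]
    exact hVk.union (hV.inter (isOpen_ne_fun hχ.continuous continuous_const))
  -- the bound for `b`
  obtain ⟨Bq, hBqd⟩ : ∃ Bq : ℝ, Bq = 2 * max B 0 := ⟨_, rfl⟩
  have hBq0 : 0 ≤ Bq := by rw [hBqd]; have := le_max_right B 0; linarith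
  have hBB : B ≤ Bq := by
    rw [hBqd]; have h1 := le_max_left B 0; have h2 := le_max_right B 0; linarith
  have hbq : ∀ p ∈ V \ k, ‖b p‖ ≤ Bq := fun p hp => (hb2 p hp).trans hBB
  have hdbq : ∀ p ∈ V \ k, ‖extDeriv b p‖ ≤ Bq := by
    intro p hp
    have h1 : extDeriv b p = (s₀ p + extDeriv b p) - s₀ p := by abel
    rw [h1]
    refine (norm_sub_le _ _).trans ?_
    have h2 := hsb2 p hp
    have h3 := hs3 p hp.1
    have h4 := le_max_left B 0
    rw [hBqd]
    linarith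
  have hindb : ∀ q, ‖(V \ k).indicator b q‖ ≤ Bq := by
    intro q
    by_cases hq : q ∈ V \ k
    · rw [indicator_of_mem hq]
      exact hbq q hq
    · rw [indicator_of_notMem hq, norm_zero]
      exact hBq0
  have hJ1' : ∀ p ∈ Ω, ContDiffAt ℝ ∞ (JJ1 ρ χ ((V \ k).indicator b)) p ∧
      extDeriv (JJ1 ρ χ ((V \ k).indicator b)) p = JJ ρ χ ((V \ k).indicator (extDeriv b)) p := by
    intro p hp
    refine hJ1 hK hSM d V k Q χ ρ b Bq ε hVk hrV hcapQ hχ hχ0 hε hρ hb1 hBq0 hbq hdbq p ?_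
    rcases hsplit p hp with h' | h'
    · exact Or.inl ⟨h'.2, h'.1⟩
    · exact Or.inr ⟨h'.1, hball p (hin p h'.1.ne')⟩
  obtain ⟨b1, hb1d⟩ : ∃ b1 : E d → Al d 1, b1 = fun p =>
      JJ1 ρ χ ((V \ k).indicator b) p + h p := ⟨_, rfl⟩
  obtain ⟨b', hb'⟩ : ∃ b' : E d → Al d 1, ∀ p, b' p = if χ p = 0 then b p else b1 p :=
    ⟨_, fun _ => rfl⟩
  have hb'1 : ∀ p ∈ Ω, b' p = b1 p := by
    intro p hp
    rw [hb' p]
    split_ifs with h0
    · rcases hsplit p hp with h' | h'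
      · rw [hb1d]
        change b p = JJ1 ρ χ ((V \ k).indicator b) p + h p
        rw [JJ1_eq hρ _ h0 (hfd p h0), indicator_of_mem h'.2, hh2 p h0, add_zero]
      · exact absurd h0 h'.1.ne'
    · rfl
  have hev : ∀ p ∈ Ω, b' =ᶠ[𝓝 p] b1 := by
    intro p hp
    filter_upwards [hΩo.mem_nhds hp] with q hq using hb'1 q hq
  have hhc : ∀ p ∈ V, ContDiffAt ℝ ∞ h p := fun p hp => hh1.contDiffAt (hV.mem_nhds hp)
  have hb1c : ∀ p ∈ Ω, ContDiffAt ℝ ∞ b1 p := by
    intro p hp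
    rw [hb1d]
    exact (hJ1' p hp).1.add (hhc p hp.1)
  have hb1e : ∀ p ∈ Ω, extDeriv b1 p =
      JJ ρ χ ((V \ k).indicator (extDeriv b)) p + (JJ ρ χ s1 p - s1 p) := by
    intro p hp
    have h1 := extDeriv_fun_add ((hJ1' p hp).1.differentiableAt (by simp))
      ((hhc p hp.1).differentiableAt (by simp))
    rw [hb1d, h1, (hJ1' p hp).2, hh3 p hp.1]
  -- the sum
  have hs1b : ∀ p ∈ V \ k, ‖s1 p‖ ≤ b₀ + Bq := by
    intro p hp
    have h1 : s1 p = a p - extDeriv b p := by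
      rw [had]
      change s1 p = s1 p + extDeriv b p - extDeriv b p
      abel
    rw [h1]
    exact (norm_sub_le _ _).trans (add_le_add (hab p hp) (hdbq p hp))
  have hsum : ∀ p ∈ Ω, JJ ρ χ ((V \ k).indicator (extDeriv b)) p + JJ ρ χ s1 p = J p := by
    intro p hp
    rcases hsplit p hp with h' | h'
    · rw [hJdef, JJ_eq hρ _ h'.1 (hfd p h'.1), JJ_eq hρ _ h'.1 (hfd p h'.1),
        JJ_eq hρ _ h'.1 (hfd p h'.1), indicator_of_mem h'.2, indicator_of_mem h'.2, had]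
      exact add_comm _ _
    · rw [JJ_ind (V := V) (k := k) (s := s1) hρ hrV hkQ h'.1.ne' (hball p (hin p h'.1.ne')), hJdef]
      have h1 : (V \ k).indicator a = fun q =>
          (V \ k).indicator (extDeriv b) q + (V \ k).indicator s1 q := by
        funext q
        by_cases hq : q ∈ V \ k
        · rw [indicator_of_mem hq, indicator_of_mem hq, indicator_of_mem hq, had]
          exact add_comm _ _
        · rw [indicator_of_notMem hq, indicator_of_notMem hq, indicator_of_notMem hq, add_zero]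
      rw [h1, JJ_add hρ.smooth.continuous (moll_cs hρ) (ind_sm hVk hdb) (ind_bd hBq0 hdbq)
        (ind_sm hVk (hs1c.mono sdiff_subset)) (ind_bd (by positivity) hs1b)]
  have hfin : ∀ p ∈ Ω, s₀ p + extDeriv b' p = ε₁ • t p + J p := by
    intro p hp
    rw [(hev p hp).extDeriv_eq, hb1e p hp, ← hsum p hp]
    have h1 : s1 p = s₀ p + (-ε₁) • t p := by rw [hs1d]
    rw [h1]
    module
  refine ⟨b', max B (Bq * (1 + D * ε) + H) + (ε₁ * B + b₀ * (1 + D * ε) ^ 2),
    ε₁ * c / 2, by positivity, ?_, ?_, ?_, ?_, ?_⟩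
  · intro p hp
    exact ((hb1c p hp).congr_of_eventuallyEq (hev p hp)).contDiffWithinAt
  · intro p hp
    have hB := hB0 p hp.1
    have hm1 := le_max_left B (Bq * (1 + D * ε) + H)
    have hm2 := le_max_right B (Bq * (1 + D * ε) + H)
    have hr1 : 0 ≤ ε₁ * B + b₀ * (1 + D * ε) ^ 2 := by positivity
    rcases hsplit p hp with h' | h'
    · rw [hb' p, if_pos h'.1]
      have h1 := hb2 p h'.2
      linarith
    · rw [hb'1 p hp, hb1d]
      change ‖JJ1 ρ χ ((V \ k).indicator b) p + h p‖ ≤ _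
      have h1 := norm_add_le (JJ1 ρ χ ((V \ k).indicator b) p) (h p)
      have h2 := JJ1_bd hρ hindb (hD p)
      have h3 := hH p (hin p h'.1.ne')
      linarith
  · intro p hp
    have hB := hB0 p hp.1
    have hm1 := le_max_left B (Bq * (1 + D * ε) + H)
    rw [hfin p hp]
    have h1 := norm_add_le (ε₁ • t p) (J p)
    have h2 : ‖ε₁ • t p‖ ≤ ε₁ * B := by
      rw [norm_smul, Real.norm_eq_abs, abs_of_pos hε₁0]
      exact mul_le_mul_of_nonneg_left (ht3 p hp.1) hε₁0.le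
    have h3 : ‖J p‖ ≤ b₀ * (1 + D * ε) ^ 2 := JJ_bd hρ (ind_bd hb₀0 hab) (hD p)
    linarith
  · intro p hp
    rw [hb' p, if_pos hp]
  · intro p hp v
    have hv2 : 0 ≤ ‖v‖ ^ 2 := sq_nonneg _
    rw [hfin p hp]
    have htv := mul_le_mul_of_nonneg_left (htp p hp.1 v) hε₁0.le
    change ε₁ * c / 2 * ‖v‖ ^ 2 ≤ ε₁ * t p ![v, Js p v] + J p ![v, Js p v]
    have hJv : - (δ * ‖v‖ ^ 2) ≤ J p ![v, Js p v] := by
      rcases hsplit p hp with h | h
      · rw [hJdef, JJ_eq hρ _ h.1 (hfd p h.1), indicator_of_mem h.2]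
        have h1 := hapos p h.2 v
        nlinarith
      · have hpN : p ∈ tsupport χ := hin p h.1.ne'
        have h1 := JJ_lb hρ hVk hac hb₀0 hδ₁.le hab hrV hkQ hapos h.1.ne' (hball p hpN)
          (fun y hy => by
            have h2 : dist p (p + χ p • y) < r₃ := by
              rw [dist_eq_norm, sub_add_cancel_left, norm_neg]
              refine lt_of_le_of_lt (hmove p y hy) ?_
              nlinarith
            have h3 := hr₃' p (hNQ hpN) _ (hball p hpN y hy) h2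
            rw [dist_eq_norm] at h3
            exact h3.le) (hS p (hNQ hpN)) (hD p) v
        refine le_trans ?_ h1
        have h4 : b₀ * δ₁ ≤ δ / 2 := by
          rw [hδ₁def, mul_div_assoc', div_le_div_iff₀ (by positivity) two_pos]
          nlinarith
        have h5 : 2 * b₀ * D * ε * S ≤ δ / 2 := by
          have h6 : b₀ * D * S ≤ (b₀ + 1) * (D + 1) * (S + 1) := by
            apply mul_le_mul (mul_le_mul _ _ hD0 _) _ hS0 _
            all_goals first | linarith | positivity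
          have h7 : ε * (b₀ * D * S) ≤ ε * ((b₀ + 1) * (D + 1) * (S + 1)) :=
            mul_le_mul_of_nonneg_left h6 hε.le
          nlinarith
        nlinarith
    rw [hδd] at hJv
    nlinarith

end Pool.Agent.Y972.SY
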